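import Pool.Agent.Helper4.FSS.Pieces

set_option autoImplicit false

namespace Pool.Agent.Results.MP_0f943d_al.LocalGroups

open Pool.Helper4.FSS

/-- If `T` is a tree of pieces of a set `S` and `Sm` a finite similarity structure on it, then the
group of all permutations of `S` locally determined by `Sm` embeds in Thompson's group `V`. -/
theorem result (S : Type*) (T : PieceTree S) (Sm : PieceSim T) :
    ∃ φ : Sm.group →* V, Function.Injective φ :=
  embeds_pieces Sm

/-- Case of the balls of a compact ultrametric space: all groups determined by finite similarity
structures in the sense of Hughes embed in `V`. -/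
theorem fss_groups (X : Type*) [MetricSpace X] [CompactSpace X] [IsUltrametricDist X]
    (Sm : FSStr X) : ∃ φ : Sm.group →* V, Function.Injective φ :=
  embeds_FSS Sm

/-- Case of the cones of `D × G`: the groups `V_(G,θ)` embed in `V`. -/
theorem labelled_groups (G : Type*) [Group G] [Finite G] (θ : G →* G) :
    ∃ φ : VG θ →* V, Function.Injective φ :=
  embeds_VG θ

end Pool.Agent.Results.MP_0f943d_al.LocalGroups
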