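import Pool.Agent.Helper49.TG.Main

set_option autoImplicit false

namespace Pool.Agent.Results.MP_0f943d_al.TorsionSubgroups

/-- Torsion subgroups of co-context-free groups are locally finite.  Let `f` be a finite family that
generates the group `G` as a monoid, such that the words over `f` that do not represent the
identity form a context-free language.  Then every finitely generated subgroup of `G` all of whose
elements have finite order is finite. -/
theorem result {G : Type} [Group G] {n : ℕ} (f : Fin n → G)
    (hf : Function.Surjective (fun w : List (Fin n) => (w.map f).prod))
    (hcf : Language.IsContextFree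
      (({w : List (Fin n) | (w.map f).prod ≠ 1} : Set (List (Fin n))) : Language (Fin n)))
    (H : Subgroup G) (hfg : H.FG) (htor : ∀ x ∈ H, IsOfFinOrder x) : (H : Set G).Finite :=
  Pool.Helper49.TG.locally_finite ⟨n, f, hf, hcf⟩ hfg htor

end Pool.Agent.Results.MP_0f943d_al.TorsionSubgroups
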