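import Pool.Agent.Helper49.UA.Undistorted

set_option autoImplicit false

namespace Pool.Agent.Results.MP_0f943d_al.UndistortedAbelian

/-- Free abelian subgroups of co-context-free groups are undistorted.  Let `f` be a finite family
that generates the group `G` as a monoid, such that the words over `f` that do not represent the
identity form a context-free language, and let `h` be a finite family of commuting independent
elements of `G`.  Then there is `C` such that every word `w` over `f` that represents
`∏ h_i ^ m_i` satisfies `∑ |m_i| ≤ C (|w| + 1)`. -/
theorem result {G : Type} [Group G] {n : ℕ} (f : Fin n → G)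
    (hf : Function.Surjective (fun w : List (Fin n) => (w.map f).prod))
    (hcf : Language.IsContextFree
      (({w : List (Fin n) | (w.map f).prod ≠ 1} : Set (List (Fin n))) : Language (Fin n)))
    {k : ℕ} (h : Fin k → G) (hc : ∀ i j, Commute (h i) (h j))
    (hind : ∀ m : Fin k → ℤ, (List.ofFn fun i => h i ^ m i).prod = 1 → m = 0) :
    ∃ C : ℕ, ∀ (m : Fin k → ℤ) (w : List (Fin n)),
      (w.map f).prod = (List.ofFn fun i => h i ^ m i).prod →
      ∑ i, (m i).natAbs ≤ C * (w.length + 1) :=
  Pool.Helper49.WR.undistorted f hf hcf h hc hind

end Pool.Agent.Results.MP_0f943d_al.UndistortedAbelian
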