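import Pool.Agent.Helper49.WR.Main

set_option autoImplicit false

namespace Pool.Agent.Results.MP_0f943d_al.WreathProducts

open Pool.Helper49.WR

/-- Let `A` be a nontrivial group and `B` a group that contains `ℤ²`.  Then no co-context-free
group contains a subgroup isomorphic to the restricted wreath product `A ≀ B`. -/
theorem result {A B G : Type} [Group A] [Group B] [Group G] (hA : Nontrivial A)
    (i : Multiplicative (ℤ × ℤ) →* B) (hi : Function.Injective i) (hG : CoCF G) :
    ¬ ∃ φ : restricted A B →* G, Function.Injective φ :=
  fun ⟨φ, hφ⟩ => no_wreath hA i hi hG φ hφ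

end Pool.Agent.Results.MP_0f943d_al.WreathProducts
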